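import Pool.Agent.Run7.h887.PQ.MAJb

/-! Piece MAJ of project PQ (helper385). -/

set_option autoImplicit false

namespace Pool.Agent.Run7.h887.PQ

open Finset
open Pool.Agent.H373R2.T7
open Pool.Agent.H807R2.Dav
open Pool.Agent.Run7.h385.PO
open Pool.Agent.Run7.h385.PQ
open Pool.Agent.Q236.CR (S_SIA S_LZ cc)

lemma gz_abs_le (z n : ℕ) : |gz z n| ≤ Real.log n + (Vz z)⁻¹ := by
  unfold gz
  have h1 : 0 ≤ ArithmeticFunction.vonMangoldt n := ArithmeticFunction.vonMangoldt_nonneg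
  have h2 : ArithmeticFunction.vonMangoldt n ≤ Real.log n := ArithmeticFunction.vonMangoldt_le_log
  have h0 : 0 ≤ Vz z := by
    unfold Vz
    apply prod_nonneg
    intro p hp
    have hp2 : (2 : ℝ) ≤ p := by exact_mod_cast (mem_pz.1 hp).2.two_le
    rw [sub_nonneg, div_le_one (by linarith)]; linarith
  have h3 : 0 ≤ (Vz z)⁻¹ := inv_nonneg.2 h0
  have h4 : 0 ≤ lamz z n ∧ lamz z n ≤ (Vz z)⁻¹ := by
    unfold lamz
    split_ifs
    · exact ⟨h3, le_rfl⟩
    · exact ⟨le_rfl, h3⟩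
  rw [abs_le]
  constructor <;> linarith [h4.1, h4.2]

theorem t_MAJ (hSIA : S_SIA) (hLZ : S_LZ) : S_MAJ := by
  intro A U
  obtain ⟨C, hC⟩ := sumTT hSIA hLZ A (U + 2 * A + 1)
  refine ⟨C + U + A + 2, fun E => ?_⟩
  obtain ⟨x1, h1⟩ := hC E
  obtain ⟨x2, h2⟩ := Vz_inv_small E
  obtain ⟨x3, h3⟩ := log_large 40
  refine ⟨max (max x1 x2) (max x3 1), fun x hx z hz1 hz2 S Y hY hYS hSx s hs q a θ hqa => ?_⟩
  have hx1 : x1 ≤ x := by omega
  have hx2 : x2 ≤ x := by omega
  have hx3 : x3 ≤ x := by omega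
  have hx4 : 1 ≤ x := by omega
  have hl := h3 x hx3
  set l := Real.log x with hldef
  set B := C + U + A + 2 with hB
  have hl1 : 1 ≤ l := by linarith
  have hl0 : 0 < l := by linarith
  have hxr : (1 : ℝ) ≤ x := by exact_mod_cast hx4
  have hlB : (0 : ℝ) < l ^ B := by positivity
  have hlB1 : (1 : ℝ) ≤ l ^ B := one_le_pow₀ hl1
  have hx3r : (1 : ℝ) ≤ (x : ℝ) ^ (1 / 3 : ℝ) := Real.one_le_rpow hxr (by norm_num)
  have hYr : (1 : ℝ) ≤ Y := by nlinarith
  have hY0 : (0 : ℝ) < Y := by linarith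
  have hYSr : (Y : ℝ) ≤ S := by nlinarith
  have hYSn : Y ≤ S := by exact_mod_cast hYSr
  have hYx : Y ≤ x := hYSn.trans hSx
  have hSr : (S : ℝ) ≤ x := by exact_mod_cast hSx
  have hS0 : (0 : ℝ) ≤ S := by positivity
  have hz : 1 ≤ z := by
    have : (1 : ℝ) ≤ z := hlB1.trans hz1
    exact_mod_cast this
  -- the bound of the function
  have hgz : ∀ n : ℕ, n ≤ 4 * x → |gz z n| ≤ 3 * l := by
    intro n hn
    have g1 := gz_abs_le z n
    have g2 := h2 x hx2 z hz hz2
    have g3 : Real.log n ≤ 2 * l := by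
      rcases Nat.eq_zero_or_pos n with h0 | h0
      · subst h0; simp; linarith
      have g4 : Real.log n ≤ Real.log ((4 * x : ℕ) : ℝ) :=
        Real.log_le_log (by exact_mod_cast h0) (by exact_mod_cast hn)
      have g5 : Real.log ((4 * x : ℕ) : ℝ) = Real.log 4 + l := by
        push_cast
        rw [Real.log_mul (by norm_num) (by positivity)]
      have g6 : Real.log 4 ≤ 4 := by
        have := Real.log_le_sub_one_of_pos (show (0 : ℝ) < 4 by norm_num)
        linarith
      linarith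
    linarith
  set R : ℝ := 3 * l with hR
  have hR0 : 0 ≤ R := by positivity
  set Q : ℕ := ⌊l ^ A⌋₊ with hQ
  have hQl : (Q : ℝ) ≤ l ^ A := Nat.floor_le (by positivity)
  set G : ℕ → ℝ := fun m => ∑ q' ∈ Icc 1 Q, ∑ b ∈ range q', TT z Y q' b m with hG
  have hG0 : ∀ m, 0 ≤ G m := fun m => sum_nonneg fun _ _ => sum_nonneg fun _ _ => TT_nonneg _ _ _ _ _
  -- one window
  have one : ∀ v ∈ s, (Y : ℝ) * ‖∑ n ∈ Ioc v (v + S), ((gz z n : ℝ) : ℂ) * ee ((n : ℝ) * θ v)‖ ≤
      ∑ i ∈ range S, G (v + i) + (S * (Y * R * (7 / l ^ B)) + 2 * (Y : ℝ) ^ 2 * R) := by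
    intro v hv
    obtain ⟨hq1, hq2, hq3⟩ := hqa v hv
    have hvx := mem_Ioc.1 (hs hv)
    rw [sum_Ioc_shift]
    have g1 := avg (fun i => ((gz z (v + 1 + i) : ℝ) : ℂ) * ee (((v + 1 + i : ℕ) : ℝ) * θ v)) S Y R (by
      intro i hi
      rw [norm_mul, norm_ee, mul_one, Complex.norm_real, Real.norm_eq_abs]
      apply hgz
      omega) hR0
    refine g1.trans ?_
    have g2 : ∀ i ∈ range S, ‖∑ j ∈ range Y, ((gz z (v + 1 + (i + j)) : ℝ) : ℂ) * ee (((v + 1 + (i + j) : ℕ) : ℝ) * θ v)‖ ≤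
        G (v + i) + Y * R * (7 / l ^ B) := by
      intro i hi
      have hi' := mem_range.1 hi
      have g3 : ∑ j ∈ range Y, ((gz z (v + 1 + (i + j)) : ℝ) : ℂ) * ee (((v + 1 + (i + j) : ℕ) : ℝ) * θ v) =
          ∑ n ∈ Ioc (v + i) (v + i + Y), ((gz z n : ℝ) : ℂ) * ee ((n : ℝ) * θ v) := by
        rw [sum_Ioc_shift]
        apply sum_congr rfl
        intro j _
        rw [show v + 1 + (i + j) = v + i + 1 + j by omega]
      rw [g3]
      have g4 := phase z Y (q v) (v + i) (a v) (θ v) R hq1 (by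
        intro n hn
        have := mem_Ioc.1 hn
        apply hgz
        omega) hR0
      refine g4.trans ?_
      have hqz : (0 : ℤ) < q v := by exact_mod_cast hq1
      have g5 : TT z Y (q v) (a v % q v).toNat (v + i) ≤ G (v + i) := by
        have k1 : q v ∈ Icc 1 Q := mem_Icc.2 ⟨hq1, Nat.le_floor hq2⟩
        have k2 : (a v % q v).toNat ∈ range (q v) := by
          rw [mem_range]
          have := Int.emod_lt_of_pos (a v) hqz
          have := Int.emod_nonneg (a v) hqz.ne'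
          omega
        calc TT z Y (q v) (a v % q v).toNat (v + i) ≤ ∑ b ∈ range (q v), TT z Y (q v) b (v + i) :=
              single_le_sum (f := fun b => TT z Y (q v) b (v + i)) (fun _ _ => TT_nonneg _ _ _ _ _) k2
          _ ≤ G (v + i) :=
              single_le_sum (f := fun q' => ∑ b ∈ range q', TT z Y q' b (v + i))
                (fun _ _ => sum_nonneg fun _ _ => TT_nonneg _ _ _ _ _) k1
      apply add_le_add g5
      apply mul_le_mul_of_nonneg_left _ (by positivity)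
      have g6 : |θ v - a v / q v| * Y ≤ 1 / l ^ B := by
        rw [le_div_iff₀ hlB]
        linarith
      have g7 : 2 * Real.pi ≤ 7 := by
        have := Real.pi_lt_d2
        linarith
      calc 2 * Real.pi * (|θ v - a v / q v| * Y) ≤ 7 * (1 / l ^ B) :=
            mul_le_mul g7 g6 (by positivity) (by norm_num)
        _ = 7 / l ^ B := by ring
    have g8 := sum_le_sum g2
    rw [sum_add_distrib, sum_const, card_range, nsmul_eq_mul] at g8
    linarith
  -- the sum over v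
  have hcard : (s.card : ℝ) ≤ x := by
    have := card_le_card hs
    rw [Nat.card_Ioc] at this
    have h' : s.card ≤ x := by omega
    exact_mod_cast h'
  have hsumG : ∑ v ∈ s, ∑ i ∈ range S, G (v + i) ≤ S * ∑ m ∈ Ioc x (4 * x), G m := by
    rw [sum_comm]
    have k1 : ∀ i ∈ range S, ∑ v ∈ s, G (v + i) ≤ ∑ m ∈ Ioc x (4 * x), G m := by
      intro i hi
      have hi' := mem_range.1 hi
      have k2 : ∑ v ∈ s, G (v + i) = ∑ m ∈ s.map (addRightEmbedding i), G m := by
        rw [sum_map]; rfl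
      rw [k2]
      apply sum_le_sum_of_subset_of_nonneg
      · intro m hm
        obtain ⟨v, hv, rfl⟩ := mem_map.1 hm
        have := mem_Ioc.1 (hs hv)
        simp only [addRightEmbedding_apply, mem_Ioc]
        omega
      · intro m _ _
        exact hG0 m
    refine (sum_le_card_nsmul _ _ _ k1).trans ?_
    rw [card_range, nsmul_eq_mul]
  have hGm : ∑ m ∈ Ioc x (4 * x), G m ≤ 6 * (x * Y) / l ^ (U + 1) := by
    have k0 : ∑ m ∈ Ioc x (4 * x), G m = ∑ q' ∈ Icc 1 Q, ∑ b ∈ range q', ∑ m ∈ Ioc x (4 * x), TT z Y q' b m := by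
      rw [sum_comm]
      apply sum_congr rfl
      intro q' _
      rw [sum_comm]
    have k1 : ∀ q' ∈ Icc 1 Q, ∑ b ∈ range q', ∑ m ∈ Ioc x (4 * x), TT z Y q' b m ≤
        Q * (6 * (x * Y / l ^ (U + 2 * A + 1))) := by
      intro q' hq'
      have hq'' := mem_Icc.1 hq'
      have hqA : (q' : ℝ) ≤ l ^ A := le_trans (by exact_mod_cast hq''.2) hQl
      have k2 : ∀ b ∈ range q', ∑ m ∈ Ioc x (4 * x), TT z Y q' b m ≤ 6 * (x * Y / l ^ (U + 2 * A + 1)) := by
        intro b _
        apply h1 x hx1 z Y q' hq''.1 hqA _ hz2 _ hYx b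
        · have : (q' : ℝ) ≤ z := (hqA.trans (pow_le_pow_right₀ hl1 (by omega))).trans hz1
          exact_mod_cast this
        · refine le_trans ?_ hY
          apply mul_le_mul_of_nonneg_left _ (by positivity)
          exact pow_le_pow_right₀ hl1 (by omega)
      refine (sum_le_card_nsmul _ _ _ k2).trans ?_
      rw [card_range, nsmul_eq_mul]
      apply mul_le_mul_of_nonneg_right _ (by positivity)
      exact_mod_cast hq''.2
    rw [k0]
    refine (sum_le_card_nsmul _ _ _ k1).trans ?_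
    rw [Nat.card_Icc, nsmul_eq_mul, show Q + 1 - 1 = Q by omega]
    have k3 : (Q : ℝ) * (Q * (6 * (x * Y / l ^ (U + 2 * A + 1)))) ≤ l ^ A * (l ^ A * (6 * (x * Y / l ^ (U + 2 * A + 1)))) := by
      apply mul_le_mul hQl _ (by positivity) (by positivity)
      apply mul_le_mul_of_nonneg_right hQl (by positivity)
    refine k3.trans (le_of_eq ?_)
    rw [show U + 2 * A + 1 = A + A + (U + 1) by ring, pow_add, pow_add]
    field_simp
  have hall := sum_le_sum one
  rw [← mul_sum, sum_add_distrib, sum_const, nsmul_eq_mul] at hall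
  set Sg := ∑ v ∈ s, ‖∑ n ∈ Ioc v (v + S), ((gz z n : ℝ) : ℂ) * ee ((n : ℝ) * θ v)‖ with hSg
  have e1 : ∑ v ∈ s, ∑ i ∈ range S, G (v + i) ≤ Y * (x * S * (6 / l ^ (U + 1))) := by
    refine hsumG.trans ?_
    refine (mul_le_mul_of_nonneg_left hGm hS0).trans (le_of_eq ?_)
    ring
  have hlBU : l / l ^ B ≤ 1 / l ^ (U + 1) := by
    rw [div_le_div_iff₀ hlB (by positivity), one_mul, ← pow_succ']
    exact pow_le_pow_right₀ hl1 (by omega)
  have e2 : (S : ℝ) * (Y * R * (7 / l ^ B)) ≤ Y * (S * (21 / l ^ (U + 1))) := by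
    have : (S : ℝ) * (Y * R * (7 / l ^ B)) = Y * (S * (21 * (l / l ^ B))) := by rw [hR]; ring
    rw [this]
    apply mul_le_mul_of_nonneg_left _ hY0.le
    apply mul_le_mul_of_nonneg_left _ hS0
    calc 21 * (l / l ^ B) ≤ 21 * (1 / l ^ (U + 1)) := by linarith
      _ = 21 / l ^ (U + 1) := by ring
  have e3 : 2 * (Y : ℝ) ^ 2 * R ≤ Y * (S * (6 / l ^ (U + 1))) := by
    have k1 : (Y : ℝ) ≤ S / l ^ B := by
      rw [le_div_iff₀ hlB]
      exact hYS
    calc 2 * (Y : ℝ) ^ 2 * R = Y * (6 * l * Y) := by rw [hR]; ring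
      _ ≤ Y * (6 * l * (S / l ^ B)) := by
          apply mul_le_mul_of_nonneg_left _ hY0.le
          apply mul_le_mul_of_nonneg_left k1 (by positivity)
      _ = Y * (S * (6 * (l / l ^ B))) := by ring
      _ ≤ Y * (S * (6 * (1 / l ^ (U + 1)))) := by
          apply mul_le_mul_of_nonneg_left _ hY0.le
          apply mul_le_mul_of_nonneg_left _ hS0
          linarith
      _ = Y * (S * (6 / l ^ (U + 1))) := by ring
  have e4 : (s.card : ℝ) * (S * (Y * R * (7 / l ^ B)) + 2 * (Y : ℝ) ^ 2 * R) ≤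
      Y * (x * S * (27 / l ^ (U + 1))) := by
    have k1 : S * (Y * R * (7 / l ^ B)) + 2 * (Y : ℝ) ^ 2 * R ≤ Y * (S * (27 / l ^ (U + 1))) := by
      have : Y * (S * (27 / l ^ (U + 1))) = Y * (S * (21 / l ^ (U + 1))) + Y * (S * (6 / l ^ (U + 1))) := by ring
      linarith
    calc (s.card : ℝ) * (S * (Y * R * (7 / l ^ B)) + 2 * (Y : ℝ) ^ 2 * R)
        ≤ x * (Y * (S * (27 / l ^ (U + 1)))) :=
          mul_le_mul hcard k1 (by positivity) (by positivity)
      _ = Y * (x * S * (27 / l ^ (U + 1))) := by ring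
  have e5 : (Y : ℝ) * Sg ≤ Y * (x * S * (33 / l ^ (U + 1))) := by
    have : Y * (x * S * (33 / l ^ (U + 1))) = Y * (x * S * (6 / l ^ (U + 1))) + Y * (x * S * (27 / l ^ (U + 1))) := by
      ring
    linarith
  have e6 : Sg ≤ x * S * (33 / l ^ (U + 1)) := le_of_mul_le_mul_left e5 hY0
  refine e6.trans ?_
  rw [mul_div_assoc' , div_le_div_iff₀ (by positivity) (by positivity), pow_succ]
  have k1 : (0 : ℝ) ≤ x * S * l ^ U := by positivity
  nlinarith

end Pool.Agent.Run7.h887.PQ
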