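import Pool.Agent.Run7.h385.PQ.Stm

/-! Piece MAJ of project PQ (helper385), part 1: averaging, phases, the windows at rational points. -/

set_option autoImplicit false

namespace Pool.Agent.Run7.h887.PQ

open Finset
open Pool.Agent.H373R2.T7
open Pool.Agent.H807R2.Dav
open Pool.Agent.Run7.h385.PO
open Pool.Agent.Run7.h385.PQ
open Pool.Agent.Q236.CR (S_SIA S_LZ cc)

lemma e_eq (x : ℝ) : Pool.Agent.H469R2.NK.e x = ee x := by
  rw [ee_eq]; rfl

lemma sum_Ioc_shift {M : Type*} [AddCommMonoid M] (f : ℕ → M) (v S : ℕ) :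
    ∑ n ∈ Ioc v (v + S), f n = ∑ i ∈ range S, f (v + 1 + i) := by
  have h : Ioc v (v + S) = Ico (v + 1) (v + 1 + S) := by
    ext n; simp only [mem_Ioc, mem_Ico]; omega
  rw [h, sum_Ico_eq_sum_range]
  congr 2
  omega

lemma avg (g : ℕ → ℂ) (S Y : ℕ) (R : ℝ) (hR : ∀ i < S + Y, ‖g i‖ ≤ R) (hR0 : 0 ≤ R) :
    (Y : ℝ) * ‖∑ i ∈ range S, g i‖ ≤ ∑ i ∈ range S, ‖∑ j ∈ range Y, g (i + j)‖ + 2 * (Y : ℝ) ^ 2 * R := by
  have h1 : ∀ j ∈ range Y, ‖∑ i ∈ range S, g i - ∑ i ∈ range S, g (i + j)‖ ≤ 2 * Y * R := by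
    intro j hj
    have hj' := mem_range.1 hj
    have e1 := Finset.sum_range_add g S j
    have e2 := Finset.sum_range_add g j S
    have e4 : ∑ i ∈ range S, g (i + j) = ∑ i ∈ range S, g (j + i) :=
      sum_congr rfl (fun i _ => by rw [add_comm])
    have e3 : ∑ i ∈ range S, g i - ∑ i ∈ range S, g (i + j) =
        ∑ i ∈ range j, g i - ∑ i ∈ range j, g (S + i) := by
      rw [add_comm j S] at e2
      rw [e4]
      linear_combination e2 - e1
    rw [e3]
    have b1 : ‖∑ i ∈ range j, g i‖ ≤ j * R := by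
      refine (norm_sum_le _ _).trans ?_
      refine (sum_le_card_nsmul _ _ R ?_).trans (by simp)
      intro i hi
      have := mem_range.1 hi
      exact hR i (by omega)
    have b2 : ‖∑ i ∈ range j, g (S + i)‖ ≤ j * R := by
      refine (norm_sum_le _ _).trans ?_
      refine (sum_le_card_nsmul _ _ R ?_).trans (by simp)
      intro i hi
      have := mem_range.1 hi
      exact hR (S + i) (by omega)
    have b3 : (j : ℝ) * R ≤ Y * R := by
      apply mul_le_mul_of_nonneg_right _ hR0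
      exact_mod_cast hj'.le
    refine (norm_sub_le _ _).trans ?_
    linarith
  have h2 : (Y : ℂ) * ∑ i ∈ range S, g i =
      ∑ j ∈ range Y, (∑ i ∈ range S, g i - ∑ i ∈ range S, g (i + j)) +
        ∑ i ∈ range S, ∑ j ∈ range Y, g (i + j) := by
    rw [sum_sub_distrib, sum_const, card_range, nsmul_eq_mul, sum_comm (s := range S)]
    ring
  have h3 : (Y : ℝ) * ‖∑ i ∈ range S, g i‖ = ‖(Y : ℂ) * ∑ i ∈ range S, g i‖ := by
    rw [norm_mul, Complex.norm_natCast]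
  rw [h3, h2]
  refine (norm_add_le _ _).trans ?_
  have h4 : ‖∑ j ∈ range Y, (∑ i ∈ range S, g i - ∑ i ∈ range S, g (i + j))‖ ≤ 2 * (Y : ℝ) ^ 2 * R := by
    refine (norm_sum_le _ _).trans ?_
    refine (sum_le_card_nsmul _ _ _ h1).trans ?_
    rw [card_range, nsmul_eq_mul]
    apply le_of_eq; ring
  have h5 := norm_sum_le (range S) (fun i => ∑ j ∈ range Y, g (i + j))
  linarith

lemma ee_sub_one (x : ℝ) : ‖ee x - 1‖ ≤ 2 * Real.pi * |x| := by
  rw [ee_eq']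
  have h := Real.norm_exp_I_mul_ofReal_sub_one_le (x := 2 * Real.pi * x)
  refine h.trans ?_
  rw [Real.norm_eq_abs, abs_mul, abs_of_pos (by positivity)]

/-- the exponential sums at rational points -/
noncomputable def TT (z Y q b m : ℕ) : ℝ :=
  ‖∑ n ∈ Ioc m (m + Y), ((gz z n : ℝ) : ℂ) * ee ((b : ℝ) * n / q)‖

lemma TT_nonneg (z Y q b m : ℕ) : 0 ≤ TT z Y q b m := norm_nonneg _

lemma phase (z Y q m : ℕ) (a : ℤ) (θ R : ℝ) (hq : 1 ≤ q) (hR : ∀ n ∈ Ioc m (m + Y), |gz z n| ≤ R) (hR0 : 0 ≤ R) :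
    ‖∑ n ∈ Ioc m (m + Y), ((gz z n : ℝ) : ℂ) * ee ((n : ℝ) * θ)‖ ≤
      TT z Y q (a % q).toNat m + Y * R * (2 * Real.pi * (|θ - a / q| * Y)) := by
  set β : ℝ := θ - a / q with hβ
  have hq0 : (0 : ℝ) < q := by exact_mod_cast hq
  have hqz : (0 : ℤ) < q := by exact_mod_cast hq
  set b : ℕ := (a % q).toNat with hb
  have hbz : (b : ℤ) = a % q := by rw [hb]; exact Int.toNat_of_nonneg (Int.emod_nonneg _ hqz.ne')
  have hab : (a : ℝ) = b + q * ((a / q : ℤ) : ℝ) := by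
    have h1 : (a : ℤ) = b + q * (a / q) := by rw [hbz]; exact (Int.emod_add_mul_ediv a q).symm
    exact_mod_cast congrArg (fun t : ℤ => (t : ℝ)) h1
  -- the phases
  have key : ∀ n ∈ Ioc m (m + Y), ((gz z n : ℝ) : ℂ) * ee ((n : ℝ) * θ) =
      ee ((m : ℝ) * β) * (((gz z n : ℝ) : ℂ) * ee ((b : ℝ) * n / q) * ee (((n : ℝ) - m) * β)) := by
    intro n _
    have h1 : ee ((n : ℝ) * θ) = ee ((m : ℝ) * β) * (ee ((b : ℝ) * n / q) * ee (((n : ℝ) - m) * β)) := by
      rw [← ee_add, ← ee_add]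
      have h2 : (n : ℝ) * θ = (m : ℝ) * β + ((b : ℝ) * n / q + ((n : ℝ) - m) * β) + (((n : ℤ) * (a / q) : ℤ) : ℝ) := by
        have h3 : θ = β + a / q := by rw [hβ]; ring
        rw [h3, hab]
        push_cast
        field_simp
        ring
      rw [h2, ee_add_int]
    rw [h1]; ring
  rw [sum_congr rfl key, ← mul_sum, norm_mul, norm_ee, one_mul]
  have h4 : ∑ n ∈ Ioc m (m + Y), ((gz z n : ℝ) : ℂ) * ee ((b : ℝ) * n / q) * ee (((n : ℝ) - m) * β) =
      ∑ n ∈ Ioc m (m + Y), ((gz z n : ℝ) : ℂ) * ee ((b : ℝ) * n / q) +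
      ∑ n ∈ Ioc m (m + Y), ((gz z n : ℝ) : ℂ) * ee ((b : ℝ) * n / q) * (ee (((n : ℝ) - m) * β) - 1) := by
    rw [← sum_add_distrib]
    apply sum_congr rfl
    intro n _
    ring
  rw [h4]
  refine (norm_add_le _ _).trans ?_
  unfold TT
  apply add_le_add le_rfl
  refine (norm_sum_le _ _).trans ?_
  have h5 : ∀ n ∈ Ioc m (m + Y), ‖((gz z n : ℝ) : ℂ) * ee ((b : ℝ) * n / q) * (ee (((n : ℝ) - m) * β) - 1)‖ ≤
      R * (2 * Real.pi * (|β| * Y)) := by
    intro n hn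
    have hn' := mem_Ioc.1 hn
    rw [norm_mul, norm_mul, norm_ee, mul_one, Complex.norm_real, Real.norm_eq_abs]
    apply mul_le_mul (hR n hn) _ (norm_nonneg _) hR0
    refine (ee_sub_one _).trans ?_
    apply mul_le_mul_of_nonneg_left _ (by positivity)
    rw [abs_mul, mul_comm]
    apply mul_le_mul_of_nonneg_left _ (abs_nonneg _)
    have h6 : (m : ℝ) ≤ n := by exact_mod_cast hn'.1.le
    have h7 : (n : ℝ) ≤ m + Y := by exact_mod_cast hn'.2
    rw [abs_of_nonneg (by linarith)]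
    linarith
  refine (sum_le_card_nsmul _ _ _ h5).trans ?_
  rw [Nat.card_Ioc, nsmul_eq_mul]
  apply le_of_eq
  push_cast
  rw [show m + Y - m = Y by omega]
  ring

end Pool.Agent.Run7.h887.PQ
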