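import Pool.Agent.Run7.h887.PQ.MAJa

/-! Piece MAJ of project PQ, part 2: the windows at rational points on average. -/

set_option autoImplicit false

namespace Pool.Agent.Run7.h887.PQ

open Finset
open Pool.Agent.H373R2.T7
open Pool.Agent.H807R2.Dav
open Pool.Agent.Run7.h385.PO
open Pool.Agent.Run7.h385.PQ
open Pool.Agent.Q236.CR (S_SIA S_LZ cc)

lemma log_large (M : ℝ) : ∃ x0 : ℕ, ∀ x : ℕ, x0 ≤ x → M ≤ Real.log x := by
  have hlim : Filter.Tendsto (fun N : ℕ => Real.log (N : ℝ)) Filter.atTop Filter.atTop :=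
    Real.tendsto_log_atTop.comp (tendsto_natCast_atTop_atTop (R := ℝ))
  obtain ⟨x0, h⟩ := Filter.eventually_atTop.1 (hlim.eventually_ge_atTop M)
  exact ⟨x0, h⟩

theorem sumTT (hSIA : S_SIA) (hLZ : S_LZ) (A U : ℕ) : ∃ C : ℕ, ∀ E : ℕ, ∃ x0 : ℕ, ∀ x : ℕ, x0 ≤ x →
    ∀ z Y q : ℕ, 1 ≤ q → (q : ℝ) ≤ Real.log x ^ A → q ≤ z → (z : ℝ) ≤ Real.log x ^ E →
    (x : ℝ) ^ (1 / 3 : ℝ) * Real.log x ^ C ≤ Y → Y ≤ x →
    ∀ b : ℕ, ∑ m ∈ Ioc x (4 * x), TT z Y q b m ≤ 6 * (x * Y / Real.log x ^ U) := by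
  obtain ⟨C0, X1, h1⟩ := hSIA A (2 * U)
  refine ⟨C0 + 1, fun E => ?_⟩
  obtain ⟨X2, h2⟩ := hLZ A E U
  obtain ⟨X3, h3⟩ := log_large (2 ^ (C0 + 1))
  refine ⟨max (max X1 X2) (max X3 1), fun x hx z Y q hq hqA hqz hzE hYx hYle b => ?_⟩
  have hx1 : X1 ≤ x := by omega
  have hx2 : X2 ≤ x := by omega
  have hx3 : X3 ≤ x := by omega
  have hx4 : 1 ≤ x := by omega
  have hl := h3 x hx3
  set l := Real.log x with hldef
  have h2p : (1 : ℝ) ≤ 2 ^ (C0 + 1) := one_le_pow₀ (by norm_num)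
  have hl1 : 1 ≤ l := h2p.trans hl
  have hl0 : 0 < l := by linarith
  have hxr : (1 : ℝ) ≤ x := by exact_mod_cast hx4
  have hY0 : (0 : ℝ) ≤ Y := by positivity
  set F : ℕ → ℝ := fun m => ‖∑ n ∈ Finset.Ioc m (m + Y),
      (ArithmeticFunction.vonMangoldt n : ℂ) * Pool.Agent.H469R2.NK.e ((b : ℝ) * n / q) - cc q b * Y‖ with hF
  have blk : ∀ x' : ℕ, X1 ≤ x' → 1 ≤ Real.log x' → (q : ℝ) ≤ Real.log x' ^ A →
      (x' : ℝ) ^ (1 / 3 : ℝ) * Real.log x' ^ C0 ≤ Y → Y ≤ x' →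
      ∑ m ∈ Ioc x' (2 * x'), F m ≤ x' * Y / Real.log x' ^ U := by
    intro x' hx' hl' hq' hY' hYx'
    have g1 := (h1 x' hx' q hq hq' b Y hY' hYx').1
    have g2 := sq_sum_le_card_mul_sum_sq (s := Ioc x' (2 * x')) (f := F)
    have g3 : ((Ioc x' (2 * x')).card : ℝ) = x' := by
      rw [Nat.card_Ioc]
      congr 1; omega
    rw [g3] at g2
    have g4 : (∑ m ∈ Ioc x' (2 * x'), F m) ^ 2 ≤ (x' * Y / Real.log x' ^ U) ^ 2 := by
      refine g2.trans ?_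
      have g5 : (x' : ℝ) * ∑ m ∈ Ioc x' (2 * x'), F m ^ 2 ≤ x' * (x' * (Y : ℝ) ^ 2 / Real.log x' ^ (2 * U)) :=
        mul_le_mul_of_nonneg_left g1 (by positivity)
      refine g5.trans (le_of_eq ?_)
      rw [div_pow, mul_pow, ← pow_mul, mul_comm U 2]
      ring
    exact abs_le_of_sq_le_sq' g4 (by positivity) |>.2
  have hTF : ∀ m, TT z Y q b m ≤ F m + Y / l ^ U := by
    intro m
    have hY8 : (x : ℝ) ^ (1 / 8 : ℝ) ≤ Y := by
      refine le_trans ?_ hYx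
      have k1 : (x : ℝ) ^ (1 / 8 : ℝ) ≤ (x : ℝ) ^ (1 / 3 : ℝ) :=
        Real.rpow_le_rpow_of_exponent_le hxr (by norm_num)
      have k2 : (1 : ℝ) ≤ l ^ (C0 + 1) := one_le_pow₀ hl1
      have k3 : (0 : ℝ) ≤ (x : ℝ) ^ (1 / 3 : ℝ) := by positivity
      nlinarith
    have g1 := h2 x hx2 z q hq hqA hqz hzE b m Y hY8
    have g2 : ∑ n ∈ Ioc m (m + Y), ((gz z n : ℝ) : ℂ) * ee ((b : ℝ) * n / q) =
        (∑ n ∈ Finset.Ioc m (m + Y),
          (ArithmeticFunction.vonMangoldt n : ℂ) * Pool.Agent.H469R2.NK.e ((b : ℝ) * n / q) - cc q b * Y) -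
        (∑ n ∈ Finset.Ioc m (m + Y), (Pool.Agent.H373R2.T7.lamz z n : ℂ) * Pool.Agent.H469R2.NK.e ((b : ℝ) * n / q)
          - cc q b * Y) := by
      rw [sub_sub_sub_cancel_right, ← sum_sub_distrib]
      apply sum_congr rfl
      intro n _
      rw [e_eq]
      unfold gz
      push_cast
      ring
    unfold TT
    rw [g2]
    refine (norm_sub_le _ _).trans ?_
    exact add_le_add le_rfl g1
  have hlog2 : Real.log ((2 * x : ℕ) : ℝ) = Real.log 2 + l := by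
    push_cast
    rw [Real.log_mul (by norm_num) (by positivity)]
  have hlog2' : l ≤ Real.log ((2 * x : ℕ) : ℝ) := by
    rw [hlog2]; linarith [Real.log_nonneg (show (1 : ℝ) ≤ 2 by norm_num)]
  have hlog2'' : Real.log ((2 * x : ℕ) : ℝ) ≤ 2 * l := by
    rw [hlog2]
    have : Real.log 2 ≤ 1 := by
      have := Real.log_two_lt_d9
      linarith
    linarith
  have hx3nn : (0 : ℝ) ≤ (x : ℝ) ^ (1 / 3 : ℝ) := by positivity
  have b1 : ∑ m ∈ Ioc x (2 * x), F m ≤ x * Y / l ^ U := by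
    apply blk x hx1 hl1 hqA _ hYle
    refine le_trans ?_ hYx
    apply mul_le_mul_of_nonneg_left _ hx3nn
    exact pow_le_pow_right₀ hl1 (by omega)
  have b2 : ∑ m ∈ Ioc (2 * x) (2 * (2 * x)), F m ≤ 2 * (x * Y / l ^ U) := by
    have k1 := blk (2 * x) (by omega) (hl1.trans hlog2')
      (hqA.trans (pow_le_pow_left₀ hl0.le hlog2' A)) ?_ (by omega)
    · refine k1.trans ?_
      have k2 : l ^ U ≤ Real.log ((2 * x : ℕ) : ℝ) ^ U := pow_le_pow_left₀ hl0.le hlog2' U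
      have k3 : (0 : ℝ) < l ^ U := by positivity
      have k4 : (0 : ℝ) ≤ ((2 * x : ℕ) : ℝ) * Y := by positivity
      refine (div_le_div_of_nonneg_left k4 k3 k2).trans (le_of_eq ?_)
      push_cast
      ring
    · refine le_trans ?_ hYx
      have k1 : (((2 * x : ℕ) : ℝ)) ^ (1 / 3 : ℝ) ≤ 2 * (x : ℝ) ^ (1 / 3 : ℝ) := by
        push_cast
        rw [Real.mul_rpow (by norm_num) (by positivity)]
        apply mul_le_mul_of_nonneg_right _ hx3nn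
        calc (2 : ℝ) ^ (1 / 3 : ℝ) ≤ (2 : ℝ) ^ (1 : ℝ) := Real.rpow_le_rpow_of_exponent_le (by norm_num) (by norm_num)
          _ = 2 := Real.rpow_one 2
      have k2 : Real.log ((2 * x : ℕ) : ℝ) ^ C0 ≤ (2 * l) ^ C0 :=
        pow_le_pow_left₀ (hl0.le.trans hlog2') hlog2'' C0
      calc (((2 * x : ℕ) : ℝ)) ^ (1 / 3 : ℝ) * Real.log ((2 * x : ℕ) : ℝ) ^ C0
          ≤ (2 * (x : ℝ) ^ (1 / 3 : ℝ)) * (2 * l) ^ C0 := by
            apply mul_le_mul k1 k2 (by positivity) (by positivity)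
        _ = (x : ℝ) ^ (1 / 3 : ℝ) * (2 ^ (C0 + 1) * l ^ C0) := by rw [mul_pow]; ring
        _ ≤ (x : ℝ) ^ (1 / 3 : ℝ) * (l * l ^ C0) := by
            apply mul_le_mul_of_nonneg_left _ hx3nn
            apply mul_le_mul_of_nonneg_right hl (by positivity)
        _ = (x : ℝ) ^ (1 / 3 : ℝ) * l ^ (C0 + 1) := by ring
  have hsplit : ∑ m ∈ Ioc x (4 * x), F m = ∑ m ∈ Ioc x (2 * x), F m + ∑ m ∈ Ioc (2 * x) (2 * (2 * x)), F m := by
    rw [show 4 * x = 2 * (2 * x) by ring]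
    rw [← sum_union]
    · congr 1
      ext m
      simp only [mem_union, mem_Ioc]
      omega
    · rw [disjoint_left]
      intro m hm hm'
      have := mem_Ioc.1 hm
      have := mem_Ioc.1 hm'
      omega
  calc ∑ m ∈ Ioc x (4 * x), TT z Y q b m ≤ ∑ m ∈ Ioc x (4 * x), (F m + Y / l ^ U) :=
        sum_le_sum (fun m _ => hTF m)
    _ = ∑ m ∈ Ioc x (4 * x), F m + 3 * (x * Y / l ^ U) := by
        rw [sum_add_distrib, sum_const, Nat.card_Ioc, nsmul_eq_mul, show 4 * x - x = 3 * x by omega]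
        push_cast; ring
    _ ≤ 6 * (x * Y / l ^ U) := by rw [hsplit]; linarith

end Pool.Agent.Run7.h887.PQ
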